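import Pool.Agent.Helper96_LAX.Stmts

/-!
# Module IP: iterated halving of all colour classes
-/

set_option autoImplicit false

namespace Pool.Agent.LAX.H87

open Pool.Agent.LAX

theorem near_step {A n' n'' lam : ℝ} (hn : 0 ≤ n') (hlam : 0 ≤ lam)
    (h1 : √A - 5 * √lam ≤ √n') (h2 : √n' ≤ √A + 5 / 2 * √lam)
    (h3 : |n'' - n' / 2| ≤ √(lam * n')) :
    √(A / 2) - 5 * √lam ≤ √n'' ∧ √n'' ≤ √(A / 2) + 5 / 2 * √lam := by
  have hq0 : (0 : ℝ) < √2 := Real.sqrt_pos.2 (by norm_num)
  have hqq : √2 * √2 = 2 := Real.mul_self_sqrt (by norm_num)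
  have hq : (7 / 5 : ℝ) ≤ √2 := by
    rw [Real.le_sqrt' (by norm_num)]
    norm_num
  have eA : √A = √2 * √(A / 2) := by
    rw [← Real.sqrt_mul (by norm_num)]
    congr 1
    ring
  have en : √n' = √2 * √(n' / 2) := by
    rw [← Real.sqrt_mul (by norm_num)]
    congr 1
    ring
  have es : √(n' / 2) * √(n' / 2) = n' / 2 := Real.mul_self_sqrt (by linarith)
  rw [Real.sqrt_mul hlam, en] at h3
  rw [eA, en] at h1 h2
  have hL : 0 ≤ √lam := Real.sqrt_nonneg _
  have hs : 0 ≤ √(n' / 2) := Real.sqrt_nonneg _
  have ha : 0 ≤ √(A / 2) := Real.sqrt_nonneg _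
  generalize √lam = L at *
  generalize √(n' / 2) = s at *
  generalize √(A / 2) = a at *
  generalize √2 = q at *
  rw [abs_le] at h3
  obtain ⟨h3a, h3b⟩ := h3
  constructor
  · rcases le_or_gt (a - 5 * L) 0 with h0 | h0
    · exact h0.trans (Real.sqrt_nonneg _)
    have h4 : a - 5 * L ≤ s - q * L := by
      have h5 : q * (a - s) ≤ q * ((5 - q) * L) := by
        have h6 : q * ((5 - q) * L) = 5 * q * L - (q * q) * L := by ring
        rw [h6, hqq]
        have h7 : (7 / 5) * L ≤ q * L := mul_le_mul_of_nonneg_right hq hL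
        linarith
      have h8 := le_of_mul_le_mul_left h5 hq0
      linarith
    have h5 : 0 < s - q * L := h0.trans_le h4
    refine h4.trans (Real.le_sqrt_of_sq_le ?_)
    have h6 : (s - q * L) ^ 2 = s * s - 2 * (q * L * s) + (q * q) * (L * L) := by ring
    have h7 : q * L * (q * L) ≤ q * L * s := mul_le_mul_of_nonneg_left (by linarith) (by positivity)
    have h8 : q * L * (q * L) = (q * q) * (L * L) := by ring
    rw [h8] at h7
    have h9 : L * (q * s) = q * L * s := by ring
    rw [h9] at h3a
    rw [h6, es]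
    linarith
  · have h4 : √n'' ≤ s + q * L / 2 := by
      rw [Real.sqrt_le_left (by positivity)]
      have h6 : (s + q * L / 2) ^ 2 = s * s + q * L * s + (q * q) * (L * L) / 4 := by ring
      have h9 : L * (q * s) = q * L * s := by ring
      rw [h9] at h3b
      rw [h6, es, hqq]
      have h10 : 0 ≤ L * L := mul_nonneg hL hL
      linarith
    refine h4.trans ?_
    have h5 : q * (s + q * L / 2) ≤ q * (a + 5 / 2 * L) := by
      have h6 : q * (s + q * L / 2) = q * s + (q * q) * L / 2 := by ring
      have h7 : (7 / 5) * L ≤ q * L := mul_le_mul_of_nonneg_right hq hL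
      rw [h6, hqq]
      linarith
    exact le_of_mul_le_mul_left h5 hq0

theorem ip (hHL : HLStmt) : IPStmt := by
  intro Z J _ _ N m lam t hlam hm hN hz
  induction t with
  | zero =>
    refine ⟨fun _ => 0, fun _ => by norm_num, fun j i hi => ?_⟩
    have hi0 : i = 0 := by simpa using hi
    subst hi0
    have e : (N j ∩ {z : Z | (fun _ => 0 : Z → ℕ) z = 0}) = N j := by
      ext z
      simp
    have hL : 0 ≤ √lam := Real.sqrt_nonneg _
    unfold Near
    rw [e]
    simp only [pow_zero, div_one]
    constructor <;> linarith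
  | succ t ih =>
    obtain ⟨col, hcol, hnear⟩ := ih
    -- the refined family
    obtain ⟨S, hS⟩ := hHL Z (J × Fin (2 ^ t)) (fun p => N p.1 ∩ {z | col z = p.2}) m lam hlam hm
      (fun p => (Set.ncard_le_ncard Set.inter_subset_left (Set.toFinite _)).trans (hN p.1))
      (fun z => by
        refine le_trans ?_ (hz z)
        refine Set.ncard_le_ncard_of_injOn (fun p => p.1) (fun p hp => hp.1) ?_ (Set.toFinite _)
        rintro ⟨j, i⟩ ⟨_, h1⟩ ⟨j', i'⟩ ⟨_, h2⟩ h
        simp only [Set.mem_ofPred_eq] at h1 h2 h
        subst h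
        have : i = i' := Fin.ext (by rw [← h1, ← h2])
        rw [this])
    classical
    refine ⟨fun z => 2 * col z + if z ∈ S then 1 else 0, fun z => ?_, fun j i hi => ?_⟩
    · have := hcol z
      show 2 * col z + (if z ∈ S then 1 else 0) < 2 ^ (t + 1)
      rw [pow_succ]
      split_ifs <;> omega
    · have hi2 : i / 2 < 2 ^ t := by
        rw [pow_succ] at hi
        omega
      have h := hS (j, ⟨i / 2, hi2⟩)
      simp only at h
      obtain ⟨h1, h2⟩ := hnear j (i / 2) hi2
      set B : Set Z := N j ∩ {z | col z = i / 2} with hB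
      have hBf : B.Finite := Set.toFinite _
      have hsplit : (B ∩ S).ncard + (B \ S).ncard = B.ncard :=
        Set.ncard_inter_add_ncard_sdiff_eq_ncard B S hBf
      have hsplitR : ((B ∩ S).ncard : ℝ) + ((B \ S).ncard : ℝ) = (B.ncard : ℝ) := by
        exact_mod_cast hsplit
      have key : ∀ n'' : ℕ, |(n'' : ℝ) - (B.ncard : ℝ) / 2| ≤ √(lam * B.ncard) →
          (N j ∩ {z | (2 * col z + if z ∈ S then 1 else 0) = i}).ncard = n'' →
          Near lam (t + 1) (N j) {z | (2 * col z + if z ∈ S then 1 else 0) = i} := by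
        intro n'' h3 h4
        have h5 := near_step (A := (N j).ncard / 2 ^ t) (n' := B.ncard) (n'' := n'') (lam := lam)
          (by positivity) hlam.le h1 h2 h3
        unfold Near
        rw [h4, pow_succ, ← div_div]
        exact h5
      rcases Nat.even_or_odd i with ⟨r, hr⟩ | ⟨r, hr⟩
      · -- even: the complement of `S`
        have e : (N j ∩ {z | (2 * col z + if z ∈ S then 1 else 0) = i}) = B \ S := by
          ext z
          simp only [hB, Set.mem_inter_iff, Set.mem_ofPred_eq, Set.mem_sdiff]
          constructor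
          · rintro ⟨hz1, hz2⟩
            split_ifs at hz2 with hzS
            · omega
            · exact ⟨⟨hz1, by omega⟩, hzS⟩
          · rintro ⟨⟨hz1, hz2⟩, hz3⟩
            refine ⟨hz1, ?_⟩
            rw [if_neg hz3]
            omega
        refine key _ ?_ (by rw [e])
        have e2 : ((B \ S).ncard : ℝ) - (B.ncard : ℝ) / 2 =
            -(((B ∩ S).ncard : ℝ) - (B.ncard : ℝ) / 2) := by
          rw [← hsplitR]
          ring
        rw [e2, abs_neg]
        exact h
      · have e : (N j ∩ {z | (2 * col z + if z ∈ S then 1 else 0) = i}) = B ∩ S := by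
          ext z
          simp only [hB, Set.mem_inter_iff, Set.mem_ofPred_eq]
          constructor
          · rintro ⟨hz1, hz2⟩
            split_ifs at hz2 with hzS
            · exact ⟨⟨hz1, by omega⟩, hzS⟩
            · omega
          · rintro ⟨⟨hz1, hz2⟩, hz3⟩
            refine ⟨hz1, ?_⟩
            rw [if_pos hz3]
            omega
        exact key _ h (by rw [e])

end Pool.Agent.LAX.H87
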