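import Pool.Agent.Helper96_LAX.Stmts

/-!
# Module P2: Phase II
-/

set_option autoImplicit false

namespace Pool.Agent.LAX.H87

open Pool.Agent.LAX

theorem sta_mono {V : Type} {E : Set (V × V)} {q P b Hb : ℕ} {F S M : ℕ → Set (V × V)} {n : ℕ}
    {w w' : V → ℕ} (h : Sta E q P b Hb F S M n w) (hw : ∀ v, w v ≤ w' v) :
    Sta E q P b Hb F S M n w' :=
  { rel := h.rel
    unp := h.unp
    sub := h.sub
    disj := h.disj
    few := h.few
    unl := fun v => ⟨(h.unl v).1.trans (hw v), (h.unl v).2.trans (hw v)⟩ }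

theorem sta_zero {V : Type} {E : Set (V × V)} {g q u w0 : ℕ} {F : ℕ → Set (V × V)}
    {Z : ℕ → Set V} (hC : Cls E g q u w0 F Z) (P b Hb : ℕ) :
    Sta E q P b Hb F (fun _ => ∅) (fun _ => ∅) 0 (fun _ => 0) where
  rel c hc := by simp at hc
  unp _ _ := ⟨rfl, rfl⟩
  sub _ _ := Set.empty_subset _
  disj c hc d hd hcd := by
    have e : ∀ i, kc F (fun _ => ∅) (fun _ => ∅) i = F i := fun i => by simp [kc]
    rw [e, e]
    exact hC.disj c hc d hd hcd
  few m hm := by simp at hm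
  unl v := by
    have e1 : {c : ℕ | c < q ∧ v ∈ dom (∅ : Set (V × V)) ∧ v ∉ dom (∅ : Set (V × V))} = ∅ := by
      ext c
      simp [dom]
    have e2 : {c : ℕ | c < q ∧ v ∈ ran (∅ : Set (V × V)) ∧ v ∉ ran (∅ : Set (V × V))} = ∅ := by
      ext c
      simp [ran]
    simp only [e1, e2]
    simp

theorem p2 (hSbk : SbkStmt) (hN : P2NStmt) : P2Stmt := by
  intro k l s I h hP V _ E hReg F Z hC
  obtain ⟨e, e₁, D, D', ζ, hNum, he1, he2⟩ := hN k l s I h hP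
  have p3 := hP.p3
  have p4 := hP.p4
  have p5 := hP.p5
  have i1 := hP.i1
  have i2 := hP.i2
  have hk3 : 2 ^ (s + I) * 8 ≤ k := by
    have : 2 ^ (s + I + 3) = 2 ^ (s + I) * 8 := by rw [pow_add]; norm_num
    rwa [this] at p3
  have hs1 : 2 ^ s ≤ 2 ^ (s + I) := Nat.pow_le_pow_right (by norm_num) (by omega)
  have hs0 : 1 ≤ 2 ^ s := Nat.one_le_two_pow
  have hlam : (0 : ℝ) < 2 ^ l := by positivity
  have h288 : 288 * (k : ℝ) ^ 2 ≤ Real.exp (2 * 2 ^ l) := by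
    have h1 : (17 * (k : ℝ)) ^ 2 ≤ Real.exp (2 ^ l) ^ 2 :=
      pow_le_pow_left₀ (by positivity) hP.p1 2
    have h2 : Real.exp (2 ^ l) ^ 2 = Real.exp (2 * 2 ^ l) := by
      rw [← Real.exp_nat_mul]
      norm_num
    rw [h2] at h1
    have h3 : (17 * (k : ℝ)) ^ 2 = 289 * (k : ℝ) ^ 2 := by ring
    rw [h3] at h1
    have h4 : 0 ≤ (k : ℝ) ^ 2 := by positivity
    linarith
  have hPk : 2 ^ (h + l) ≤ k := by
    have : 2 ^ (h + l) ≤ 2 ^ s := Nat.pow_le_pow_right (by norm_num) (by omega)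
    omega
  -- the induction over the superblocks
  have hJ : h ≤ I + 5 := by omega
  have hpow1 : 2 ^ (I + 5 - h) * 2 ^ h = 2 ^ (I + 5) := by
    rw [← pow_add]
    congr 1
    omega
  have hpow2 : 2 ^ (I + 5 - h) * 2 ^ h * 2 ^ (h + l) = 2 ^ (s + I) := by
    rw [hpow1, ← pow_add]
    congr 1
    omega
  have hpow3 : 2 ^ (I + 5 - h) * 2 ^ (l + 4) ≤ 2 ^ (s + 13) := by
    rw [← pow_add]
    exact Nat.pow_le_pow_right (by norm_num) (by omega)
  have hpow4 : 2 ^ (s + 14) = 2 ^ (s + 13) + 2 ^ (s + 13) := by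
    rw [pow_succ]
    ring
  have hpow5 : 2 ^ s ≤ 2 ^ (s + 13) := Nat.pow_le_pow_right (by norm_num) (by omega)
  have hind : ∀ j : ℕ, j ≤ 2 ^ (I + 5 - h) → ∃ S M : ℕ → Set (V × V),
      Sta E (2 ^ (s + I)) (2 ^ (h + l)) (2 ^ (s + 8)) (2 ^ (l + 4)) F S M (j * 2 ^ h)
        (fun _ => j * 2 ^ (l + 4)) := by
    intro j
    induction j with
    | zero =>
      intro _
      refine ⟨fun _ => ∅, fun _ => ∅, ?_⟩
      simp only [Nat.zero_mul]
      exact sta_zero hC _ _ _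
    | succ j ih =>
      intro hj
      obtain ⟨S, M, hSM⟩ := ih (by omega)
      have hj1 : (j * 2 ^ h + 2 ^ h) * 2 ^ (h + l) ≤ 2 ^ (s + I) := by
        rw [← hpow2]
        refine Nat.mul_le_mul_right _ ?_
        have : j * 2 ^ h + 2 ^ h = (j + 1) * 2 ^ h := by ring
        rw [this]
        exact Nat.mul_le_mul_right _ hj
      have hj2 : j * 2 ^ (l + 4) + 2 ^ (l + 4) ≤ 2 ^ (s + 13) := by
        refine le_trans ?_ hpow3
        have : j * 2 ^ (l + 4) + 2 ^ (l + 4) = (j + 1) * 2 ^ (l + 4) := by ring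
        rw [this]
        exact Nat.mul_le_mul_right _ hj
      obtain ⟨S', M', hSM'⟩ := hSbk V E k (2 ^ (s + I)) (2 ^ s) F Z (2 ^ l) h (17 * 2 ^ s)
        (k - 2 ^ (s + I)) (k - 2 ^ (s + I) + 2 ^ (s + 14)) e e₁ (2 ^ (h + l)) (2 ^ s)
        (2 ^ (l + 4)) (2 ^ (s + 8)) D D' ζ hlam h288 (by omega) hPk hReg hC hNum (by omega)
        he1 he2 S M (j * 2 ^ h) (j * 2 ^ (l + 4)) hSM hj1 (by omega)
      refine ⟨S', M', ?_⟩
      have e1 : (j + 1) * 2 ^ h = j * 2 ^ h + 2 ^ h := by ring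
      have e2 : (j + 1) * 2 ^ (l + 4) = j * 2 ^ (l + 4) + 2 ^ (l + 4) := by ring
      rw [e1, e2]
      exact hSM'
  obtain ⟨S, M, hSM⟩ := hind _ le_rfl
  rw [hpow1] at hSM
  exact ⟨S, M, sta_mono hSM fun _ => hpow3⟩

end Pool.Agent.LAX.H87
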